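import Pool.Agent.H348Z.Box.Main

set_option autoImplicit false

namespace Pool.Agent.Results.MP_b75ab8_co.Subexponential

/-- For every `d ≥ 2` there is `M` such that for all `k ≥ 1` and `n ≥ M k` the cube `[n] ^ d` has a partition into
at most `exp (400 d ^ (2/3) (log d) ^ 2) k + M` nonempty boxes such that every line meets at least `k` of them. -/
theorem result (d : ℕ) (hd : 2 ≤ d) :
    ∃ M : ℕ, ∀ k n : ℕ, 1 ≤ k → M * k ≤ n →
      ∃ P : Finset (Fin d → Finset (Fin n)),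
        (∀ B ∈ P, ∀ i : Fin d, (B i).Nonempty) ∧
        (∀ x : Fin d → Fin n, ∃! B, B ∈ P ∧ ∀ i : Fin d, x i ∈ B i) ∧
        (∀ i : Fin d, ∀ a : Fin d → Fin n,
          k ≤ (P.filter (fun B => ∃ t : Fin n, ∀ j : Fin d,
            Function.update a i t j ∈ B j)).card) ∧
        (P.card : ℝ) ≤ Real.exp (400 * (d : ℝ) ^ ((2 : ℝ) / 3) * Real.log d ^ 2) * k + M := by
  obtain ⟨M, hM⟩ := Pool.Agent.H348Z.Box.explicit_bound d hd
  refine ⟨M, fun k n hk hn => ?_⟩
  obtain ⟨P, hP, hc⟩ := hM k n hk hn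
  exact ⟨P, hP.1, hP.2.1, hP.2.2, hc⟩

end Pool.Agent.Results.MP_b75ab8_co.Subexponential
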